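import Pool.Agent.R403.IS.YMain

/-!
# Isospectral surfaces whose Jacobians are not Galois conjugate up to isogeny

Let `Z_u` be the curve `z₂² = z₀² - z₁²`, `z₃² = z₀² + z₁²`, `z₄² = z₀² - u z₁²`,
`z₅² = z₀² + u z₁²` in projective 5-space, with `|u| = 1`, and let `X_u` and `Y_u` be its quotients
by the groups of sign changes `SA` and `SB`.

* Functions on `Z_u` decompose according to the characters of the group of all sign changes. The
  functions on `X_u` and on `Y_u` are the sums of eight of these parts each. Isometries of `Z_u`,
  among them an anti-holomorphic one which exists as `|u| = 1`, match the parts of `X_u` with the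
  parts of `Y_u`. So `X_u` and `Y_u` are isospectral.
* The Jacobian of each Galois conjugate of `X_u` has an endomorphism of square `-1`. For a suitable
  `u` the Jacobian of `Y_u` has no such endomorphism, even up to isogeny: it would act on the
  rational vector space of the holomorphic forms with periods in `ℚ ω₁ + ℚ ω₂`, where `ω₁`, `ω₂`
  are the periods of a factor `E` without complex multiplication which occurs in the Jacobian of
  `Y_u` an odd number of times, and this space has odd dimension.
-/

set_option autoImplicit false

open Pool.Agent.R403.IS

namespace Pool.Agent.Results.MP_b9289b_nt.IsospectralNotConjugate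

/-- There are isospectral curves `C`, `D` such that the Jacobian of `D` is isogenous to the
Jacobian of no Galois conjugate of `C`. -/
theorem result : ∃ C D : CurveData 6, C.IsCurve ∧ D.IsCurve ∧ Isospectral C D ∧
    ∀ σ : ℂ ≃+* ℂ, ¬ JacIsogenous D (C.conj σ) :=
  main

end Pool.Agent.Results.MP_b9289b_nt.IsospectralNotConjugate
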